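import Pool.Agent.Disp90.Final
import Pool.Agent.Disp71.Main

/-!
The number `d(n)` (least dispersal bound forcing stability of `P`-matrices with `(S_d)`) grows
linearly: for every `d ≥ 1` and every `n ≥ 288 d` there is an `n × n` `P`-matrix satisfying `(S_d)`
which is not stable; so no single `d` works for all orders and `d(n) > n / 288` for all `n ≥ 1`.

The definitions are those of `Pool.Agent.Disp71.Defs`:
`IsP A`      : every principal minor of the real matrix `A` is positive (minors are taken along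
               increasing sequences, order embeddings `Fin k ↪o Fin n`);
`IsStable A` : every complex eigenvalue of `A` has positive real part;
`CondS d A`  : `A[α,β] A[β,α] ≥ 0` for all increasing `α, β` of the same length `k` with dispersal
               `k - #(α ∩ β) ≤ d`;
`dNum n`     : the infimum of the `d` with `1 ≤ d ≤ n` such that every `P`-matrix of order `n`
               satisfying `(S_d)` is stable.
-/

namespace Pool.Agent.Results.MP_40f31b_al.LinearGrowth

open Pool.Agent.Disp71

theorem result :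
    (∀ d n : ℕ, 1 ≤ d → 288 * d ≤ n →
      ∃ A : Matrix (Fin n) (Fin n) ℝ, IsP A ∧ CondS d A ∧ ¬ IsStable A) ∧
    (∀ n : ℕ, 1 ≤ n → IsLeast {d : ℕ | 1 ≤ d ∧ d ≤ n ∧
      ∀ A : Matrix (Fin n) (Fin n) ℝ, IsP A → CondS d A → IsStable A} (dNum n) ∧
      n < 288 * dNum n) := by
  refine ⟨fun d n hd hn => Pool.Agent.Disp90.unstable' d n hd hn, fun n hn => ?_⟩
  have hmem : n ∈ {d : ℕ | 1 ≤ d ∧ d ≤ n ∧
      ∀ A : Matrix (Fin n) (Fin n) ℝ, IsP A → CondS d A → IsStable A} :=
    ⟨hn, le_rfl, fun A hP hS => stable_of_condS (by omega) A hP hS⟩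
  have hleast : IsLeast {d : ℕ | 1 ≤ d ∧ d ≤ n ∧
      ∀ A : Matrix (Fin n) (Fin n) ℝ, IsP A → CondS d A → IsStable A} (dNum n) :=
    ⟨Nat.sInf_mem ⟨n, hmem⟩, fun d hd => Nat.sInf_le hd⟩
  refine ⟨hleast, ?_⟩
  by_contra hcon
  obtain ⟨A, hP, hS, hU⟩ := Pool.Agent.Disp90.unstable' (dNum n) n hleast.1.1 (by omega)
  exact hU (hleast.1.2.2 A hP hS)

end Pool.Agent.Results.MP_40f31b_al.LinearGrowth
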