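import Pool.Agent.Disp71.Main
import Pool.Agent.Disp71.Lower

/-!
The number `d(n)` (least dispersal bound forcing stability of sign-symmetric `P`-matrices):
`d(n) = 1` for `n = 1, …, 4`, `d(5) = d(6) = 2`, and `2 ≤ d(n) ≤ ⌊(n-1)/2⌋` for all `n ≥ 5`.

All definitions are in `Pool.Agent.Disp71.Defs`:
`IsP A`      : every principal minor of the real matrix `A` is positive (minors are taken along
               increasing sequences, order embeddings `Fin k ↪o Fin n`);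
`IsStable A` : every complex eigenvalue of `A` has positive real part;
`CondS d A`  : `A[α,β] A[β,α] ≥ 0` for all increasing `α, β` of the same length `k` with dispersal
               `k - #(α ∩ β) ≤ d`;
`dNum n`     : the infimum of the `d` with `1 ≤ d ≤ n` such that every `P`-matrix of order `n`
               satisfying `(S_d)` is stable.
-/

namespace Pool.Agent.Results.MP_40f31b_al.SmallOrders

open Pool.Agent.Disp71

lemma mem_of_le {n d : ℕ} (h1 : 1 ≤ d) (h2 : d ≤ n) (h3 : n ≤ 2 * d + 2) :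
    d ∈ {d : ℕ | 1 ≤ d ∧ d ≤ n ∧
      ∀ A : Matrix (Fin n) (Fin n) ℝ, IsP A → CondS d A → IsStable A} :=
  ⟨h1, h2, fun A hP hS => stable_of_condS h3 A hP hS⟩

theorem result :
    (∀ n : ℕ, 1 ≤ n → IsLeast {d : ℕ | 1 ≤ d ∧ d ≤ n ∧
      ∀ A : Matrix (Fin n) (Fin n) ℝ, IsP A → CondS d A → IsStable A} (dNum n)) ∧
    (∀ n : ℕ, 1 ≤ n → n ≤ 4 → dNum n = 1) ∧
    dNum 5 = 2 ∧ dNum 6 = 2 ∧
    (∀ n : ℕ, 5 ≤ n → 2 ≤ dNum n ∧ dNum n ≤ (n - 1) / 2) := by
  have hleast : ∀ n : ℕ, 1 ≤ n → IsLeast {d : ℕ | 1 ≤ d ∧ d ≤ n ∧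
      ∀ A : Matrix (Fin n) (Fin n) ℝ, IsP A → CondS d A → IsStable A} (dNum n) := fun n hn =>
    ⟨Nat.sInf_mem ⟨n, mem_of_le hn le_rfl (by omega)⟩, fun d hd => Nat.sInf_le hd⟩
  have hbig : ∀ n : ℕ, 5 ≤ n → 2 ≤ dNum n ∧ dNum n ≤ (n - 1) / 2 := by
    intro n hn
    have h := hleast n (by omega)
    refine ⟨?_, h.2 (mem_of_le (by omega) (by omega) (by omega))⟩
    by_contra hlt
    have h1 : dNum n = 1 := le_antisymm (by omega) h.1.1
    obtain ⟨A, hP, hS, hns⟩ := lower n hn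
    refine hns (h.1.2.2 A hP ?_)
    rw [h1]; exact hS
  refine ⟨hleast, ?_, ?_, ?_, hbig⟩
  · intro n h1 h4
    have h := hleast n h1
    exact le_antisymm (h.2 (mem_of_le le_rfl h1 (by omega))) h.1.1
  · exact le_antisymm (hbig 5 le_rfl).2 (hbig 5 le_rfl).1
  · exact le_antisymm (hbig 6 (by norm_num)).2 (hbig 6 (by norm_num)).1

end Pool.Agent.Results.MP_40f31b_al.SmallOrders
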